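import Pool.Agent.Helper236.Size

namespace Pool.Agent.Results.MP_0e5d84_co.Main

open Pool.Agent.Helper236 Pool.Agent.Helper236.Size

/-- Crapo and Rota: the critical exponent defined from the characteristic polynomial is the least
number of linear functionals (hyperplanes) without a common zero in the point set, for every
representation. This is a check of the definition `critExp`. -/
theorem critExp_le_iff_functionals (F : Type) [Field F] [Finite F] {α : Type} (M : Matroid α)
    [M.Finite] (n : ℕ) (v : α → (Fin n → F))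
    (hv : ∀ I ⊆ M.E, M.Indep I ↔ LinearIndepOn F v I) (c : ℕ) :
    critExp M (Nat.card F) ≤ c ↔
      ∃ f : Fin c → ((Fin n → F) →ₗ[F] F), ∀ e ∈ M.E, ∃ i, f i (v e) ≠ 0 := by
  rw [critExp_le_iff (F := F) hv c]
  constructor
  · rintro ⟨f, hf⟩
    refine ⟨fun i => (LinearMap.proj i).comp f, fun e he => ?_⟩
    by_contra hcon
    push Not at hcon
    apply hf e he
    ext i
    exact hcon i
  · rintro ⟨f, hf⟩
    refine ⟨LinearMap.pi f, fun e he h0 => ?_⟩
    obtain ⟨i, hi⟩ := hf e he
    exact hi (congrFun h0 i)

theorem result : ∃ (F : Type) (_ : Field F) (_ : Finite F) (k n : ℕ), 1 ≤ k ∧ 1 ≤ n ∧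
    sizeFn (InM F k) n < sizeFn (InExS F k) n :=
  Size.main

end Pool.Agent.Results.MP_0e5d84_co.Main
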